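import Mathlib
import Pool.Agent.BVDim.Support
import Pool.Agent.BVDim.LineField

set_option autoImplicit false

namespace Pool.Agent.BVDim2

open MeasureTheory Filter Topology WithLp Metric Finset
open Pool.Agent.BVDim

/-- The open cone of the vectors which have, in some `a + 1` coordinates, a slowly decreasing
sequence of coordinates with a small last term. -/
def Uset (a M b d : ℕ) : Set (EuclideanSpace ℝ (Fin d)) :=
  {ξ | ∃ i : Fin (a + 1) → Fin d, Function.Injective i ∧ 0 < |ξ (i 0)| ∧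
    8 * (M : ℝ) * |ξ (i (Fin.last a))| < |ξ (i 0)| ∧
    (∀ k : Fin a, |ξ (i k.castSucc)| < 2 * (b : ℝ) * |ξ (i k.succ)|) ∧
    ∀ l, |ξ l| < ((a : ℝ) + 2) * |ξ (i 0)|}

theorem isOpen_Uset (a M b d : ℕ) : IsOpen (Uset a M b d) := by
  have hc : ∀ l : Fin d, Continuous (fun ξ : EuclideanSpace ℝ (Fin d) => |ξ l|) := by
    intro l
    fun_prop
  have h1 : Uset a M b d = ⋃ i : Fin (a + 1) → Fin d, {ξ | Function.Injective i ∧ 0 < |ξ (i 0)| ∧
    8 * (M : ℝ) * |ξ (i (Fin.last a))| < |ξ (i 0)| ∧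
    (∀ k : Fin a, |ξ (i k.castSucc)| < 2 * (b : ℝ) * |ξ (i k.succ)|) ∧
    ∀ l, |ξ l| < ((a : ℝ) + 2) * |ξ (i 0)|} := by
    ext ξ
    simp [Uset]
  rw [h1]
  refine isOpen_iUnion fun i => ?_
  refine isOpen_const.inter ((isOpen_lt continuous_const (hc _)).inter
    ((isOpen_lt (continuous_const.mul (hc _)) (hc _)).inter (IsOpen.inter ?_ ?_)))
  · have h2 : (⋂ k : Fin a, {ξ : EuclideanSpace ℝ (Fin d) |
        |ξ (i k.castSucc)| < 2 * (b : ℝ) * |ξ (i k.succ)|}) =
        {ξ | ∀ k : Fin a, |ξ (i k.castSucc)| < 2 * (b : ℝ) * |ξ (i k.succ)|} := by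
      ext ξ
      simp
    have h3 := isOpen_iInter_of_finite (s := fun k : Fin a => {ξ : EuclideanSpace ℝ (Fin d) |
        |ξ (i k.castSucc)| < 2 * (b : ℝ) * |ξ (i k.succ)|})
        (fun k => isOpen_lt (hc _) (continuous_const.mul (hc _)))
    rw [h2] at h3
    exact h3
  · have h2 : (⋂ l : Fin d, {ξ : EuclideanSpace ℝ (Fin d) |
        |ξ l| < ((a : ℝ) + 2) * |ξ (i 0)|}) =
        {ξ | ∀ l : Fin d, |ξ l| < ((a : ℝ) + 2) * |ξ (i 0)|} := by
      ext ξ
      simp
    have h3 := isOpen_iInter_of_finite (s := fun l : Fin d => {ξ : EuclideanSpace ℝ (Fin d) |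
        |ξ l| < ((a : ℝ) + 2) * |ξ (i 0)|})
        (fun l => isOpen_lt (hc _) (continuous_const.mul (hc _)))
    rw [h2] at h3
    exact h3

theorem Uset_smul_of {a M b d : ℕ} {c : ℝ} (hc : c ≠ 0) {ξ : EuclideanSpace ℝ (Fin d)}
    (h : ξ ∈ Uset a M b d) : c • ξ ∈ Uset a M b d := by
  obtain ⟨i, h0, h1, h2, h3, h4⟩ := h
  have hc' : 0 < |c| := abs_pos.2 hc
  have e : ∀ l, |(c • ξ) l| = |c| * |ξ l| := fun l => by
    rw [PiLp.smul_apply, smul_eq_mul, abs_mul]
  refine ⟨i, h0, ?_, ?_, ?_, ?_⟩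
  · rw [e]; positivity
  · rw [e, e]
    have := mul_lt_mul_of_pos_left h2 hc'
    linarith
  · intro k
    rw [e, e]
    have := mul_lt_mul_of_pos_left (h3 k) hc'
    linarith
  · intro l
    rw [e, e]
    have := mul_lt_mul_of_pos_left (h4 l) hc'
    linarith

theorem Uset_smul {a M b d : ℕ} {c : ℝ} (hc : c ≠ 0) (ξ : EuclideanSpace ℝ (Fin d)) :
    c • ξ ∈ Uset a M b d ↔ ξ ∈ Uset a M b d := by
  constructor
  · intro h
    have h1 := Uset_smul_of (inv_ne_zero hc) h
    rwa [smul_smul, inv_mul_cancel₀ hc, one_smul] at h1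
  · exact Uset_smul_of hc

/-- The space of the first `a` coordinates does not meet the cone. -/
theorem not_mem_Uset {a M b d : ℕ} {ξ : EuclideanSpace ℝ (Fin d)} (h : ∀ l : Fin d, a ≤ l.val → ξ l = 0) :
    ξ ∉ Uset a M b d := by
  rintro ⟨i, h0, h1, h2, h3, h4⟩
  have hne : ∀ k, ξ (i k) ≠ 0 := by
    intro k
    refine Fin.cases ?_ (fun k => ?_) k
    · intro h5
      rw [h5, abs_zero] at h1
      exact lt_irrefl _ h1
    · intro h5
      have h6 := h3 k
      rw [h5, abs_zero, mul_zero] at h6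
      exact absurd h6 (not_lt.2 (abs_nonneg _))
  have hlt : ∀ k, (i k).val < a := fun k => by
    by_contra h5
    exact hne k (h _ (not_lt.1 h5))
  have h5 : Function.Injective (fun k : Fin (a + 1) => (⟨(i k).val, hlt k⟩ : Fin a)) := by
    intro k k' hk
    exact h0 (Fin.ext (Fin.mk.inj_iff.1 hk))
  have h6 := Fintype.card_le_of_injective _ h5
  simp at h6

section Spectrum

variable {M q : ℕ} {κ : ℝ} {ψ : ℝ → ℝ} {σ : Measure ℝ}

/-- the spectrum of the difference of the two measures does not meet the open cone -/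
theorem spectrum (a b : ℕ) (hb : 1 ≤ b) (hM : 1 ≤ M) (hψ : IsCutoff κ ψ)
    (hq : 2 * (M : ℝ) ≤ κ * ((q : ℝ) - 1)) (hκ0 : 0 < κ) (hκb : (2 * (b : ℝ) + 1) * κ ≤ 1)
    (hκa : ((a : ℝ) + 2) * κ ≤ 1 / 2) (hq1 : 2 ≤ q) (hσ : IsLimit M q ψ σ) (d : ℕ) (hd : 0 < d)
    (ξ : EuclideanSpace ℝ (Fin d)) (hξ : ξ ∈ Uset a M b d) :
    ∏ i, charFun σ (2 * Real.pi * ξ i) = ∏ i, Phi M q ψ 0 (ξ i) := by
  have hMr : (1 : ℝ) ≤ M := by exact_mod_cast hM
  have hbr : (1 : ℝ) ≤ b := by exact_mod_cast hb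
  have hκ : κ ≤ 1 / 3 := by nlinarith
  have hqr : (2 : ℝ) ≤ q := by exact_mod_cast hq1
  set S := supn d ξ with hS
  obtain ⟨i0, hi0⟩ := exists_eq_supn hd ξ
  by_cases hS2 : S ≤ 1 / 2
  · apply Finset.prod_congr rfl
    intro i _
    rw [hσ.char 0]
    rw [pow_zero]
    exact (abs_le_supn ξ i).trans hS2
  · push Not at hS2
    have hR : ∏ i, Phi M q ψ 0 (ξ i) = 0 := by
      apply Finset.prod_eq_zero (Finset.mem_univ i0)
      apply Phi_supp hM hψ hq 0
      rw [pow_zero, mul_one, hi0]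
      linarith
    rw [hR]
    by_contra hne
    have hne' : ∀ i, charFun σ (2 * Real.pi * ξ i) ≠ 0 := by
      intro i
      exact (Finset.prod_ne_zero_iff.1 hne) i (Finset.mem_univ i)
    -- choose the scale
    have hex : ∃ J : ℕ, S ≤ (q : ℝ) ^ (J + 1) / 2 := by
      obtain ⟨J, hJ⟩ := pow_unbounded_of_one_lt (2 * S) (by linarith : (1 : ℝ) < q)
      refine ⟨J, ?_⟩
      have h1 : (q : ℝ) ^ J ≤ (q : ℝ) ^ (J + 1) := pow_le_pow_right₀ (by linarith) (by omega)
      linarith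
    classical
    obtain ⟨J, hJ1, hJ2⟩ : ∃ J : ℕ, S ≤ (q : ℝ) ^ (J + 1) / 2 ∧ (q : ℝ) ^ J / 2 < S := by
      refine ⟨Nat.find hex, Nat.find_spec hex, ?_⟩
      rcases Nat.eq_zero_or_pos (Nat.find hex) with h0 | hpos
      · rw [h0, pow_zero]; exact hS2
      · have h1 := Nat.find_min hex (m := Nat.find hex - 1) (by omega)
        rw [not_le] at h1
        rwa [show Nat.find hex - 1 + 1 = Nat.find hex by omega] at h1
    have hqJ : (0 : ℝ) < (q : ℝ) ^ J := by positivity
    have hn : ∀ i, ∃ n : ℤ, |(n : ℝ)| ≤ 2 * M ∧ |ξ i + n * (q : ℝ) ^ J| < κ * (q : ℝ) ^ J := by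
      intro i
      have h1 := hne' i
      rw [hσ.char (J + 1) _ ((abs_le_supn ξ i).trans hJ1), Phi_succ hM hψ] at h1
      obtain ⟨n, hn, hn2⟩ := Finset.exists_ne_zero_of_sum_ne_zero h1
      refine ⟨n, ?_, ?_⟩
      · rw [mem_TT] at hn
        exact_mod_cast hn
      · by_contra hge
        rw [not_lt] at hge
        apply hn2
        rw [Phi_supp hM hψ hq J _ hge, mul_zero]
    -- a coordinate which is small compared with the scale is very small
    have hsmall : ∀ i, |ξ i| ≤ (1 - κ) * (q : ℝ) ^ J → |ξ i| < κ * (q : ℝ) ^ J := by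
      intro i hi
      obtain ⟨n, hn1, hn2⟩ := hn i
      by_cases hz : n = 0
      · subst hz
        simpa using hn2
      · exfalso
        have h1 : (1 : ℝ) ≤ |(n : ℝ)| := by exact_mod_cast Int.one_le_abs hz
        have h2 : |(n : ℝ) * (q : ℝ) ^ J| ≤ |ξ i + n * (q : ℝ) ^ J| + |ξ i| := by
          calc |(n : ℝ) * (q : ℝ) ^ J| = |(ξ i + n * (q : ℝ) ^ J) - ξ i| := by ring_nf
            _ ≤ _ := abs_sub _ _
        rw [abs_mul, abs_of_pos hqJ] at h2
        nlinarith
    obtain ⟨i, hinj, h1, h2, h3, h4⟩ := hξ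
    have hbig : |ξ (i 0)| < (2 * M + κ) * (q : ℝ) ^ J := by
      obtain ⟨n, hn1, hn2⟩ := hn (i 0)
      have h5 : |ξ (i 0)| ≤ |ξ (i 0) + n * (q : ℝ) ^ J| + |(n : ℝ) * (q : ℝ) ^ J| := by
        calc |ξ (i 0)| = |(ξ (i 0) + n * (q : ℝ) ^ J) - n * (q : ℝ) ^ J| := by ring_nf
          _ ≤ _ := abs_sub _ _
      rw [abs_mul, abs_of_pos hqJ] at h5
      nlinarith
    have hall : ∀ k, |ξ (i k)| < κ * (q : ℝ) ^ J := by
      intro k
      induction k using Fin.reverseInduction with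
      | last =>
        apply hsmall
        have h5 : 8 * (M : ℝ) * |ξ (i (Fin.last a))| < 3 * M * (q : ℝ) ^ J := by
          refine h2.trans (hbig.trans_le ?_)
          apply mul_le_mul_of_nonneg_right _ hqJ.le
          linarith
        have h6 : 8 * |ξ (i (Fin.last a))| < 3 * (q : ℝ) ^ J := by
          have h7 : (M : ℝ) * (8 * |ξ (i (Fin.last a))|) < M * (3 * (q : ℝ) ^ J) := by linarith
          exact lt_of_mul_lt_mul_left h7 (by linarith)
        nlinarith
      | cast k ih =>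
        apply hsmall
        have h5 := h3 k
        have h6 : 2 * (b : ℝ) * |ξ (i k.succ)| ≤ 2 * b * (κ * (q : ℝ) ^ J) :=
          mul_le_mul_of_nonneg_left ih.le (by positivity)
        have h7 : 2 * (b : ℝ) * (κ * (q : ℝ) ^ J) ≤ (1 - κ) * (q : ℝ) ^ J := by
          rw [← mul_assoc]
          apply mul_le_mul_of_nonneg_right _ hqJ.le
          linarith
        linarith
    have h5 := h4 i0
    rw [hi0] at h5
    have h6 : ((a : ℝ) + 2) * |ξ (i 0)| ≤ ((a : ℝ) + 2) * (κ * (q : ℝ) ^ J) :=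
      mul_le_mul_of_nonneg_left (hall 0).le (by positivity)
    have h7 : ((a : ℝ) + 2) * (κ * (q : ℝ) ^ J) ≤ 1 / 2 * (q : ℝ) ^ J := by
      rw [← mul_assoc]
      exact mul_le_mul_of_nonneg_right hκa hqJ.le
    linarith

end Spectrum

/-! ### Every subspace of dimension `a + 1` meets the open cone -/

/-- The coordinate functionals on a subspace. -/
noncomputable def coor {d : ℕ} (L : Submodule ℝ (EuclideanSpace ℝ (Fin d))) (l : Fin d) :
    Module.Dual ℝ L :=
  (EuclideanSpace.proj (𝕜 := ℝ) l).toLinearMap.comp L.subtype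

theorem coor_apply {d : ℕ} (L : Submodule ℝ (EuclideanSpace ℝ (Fin d))) (l : Fin d) (x : L) :
    coor L l x = (x : EuclideanSpace ℝ (Fin d)) l := rfl

theorem span_coor {d : ℕ} (L : Submodule ℝ (EuclideanSpace ℝ (Fin d))) :
    Submodule.span ℝ (Set.range (coor L)) = ⊤ := by
  by_contra hne
  obtain ⟨f, hf0, hf⟩ := Submodule.exists_le_ker_of_lt_top _ (lt_top_iff_ne_top.2 hne)
  apply hf0
  obtain ⟨x, rfl⟩ := (Module.evalEquiv ℝ L).surjective f
  have hx : x = 0 := by
    apply Subtype.ext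
    ext l
    have h1 := hf (Submodule.subset_span ⟨l, rfl⟩)
    rw [LinearMap.mem_ker, Module.evalEquiv_apply] at h1
    exact h1
  rw [hx, map_zero]

/-- Coordinates with a maximal determinant: all the coordinates are combinations of them with
coefficients bounded by `1`. -/
theorem exists_good_coordinates {a d : ℕ} (L : Submodule ℝ (EuclideanSpace ℝ (Fin d)))
    (hL : Module.finrank ℝ L = a + 1) :
    ∃ i : Fin (a + 1) → Fin d, Function.Injective i ∧
      ∀ l, ∃ c : Fin (a + 1) → ℝ, (∀ j, |c j| ≤ 1) ∧ coor L l = ∑ j, c j • coor L (i j) := by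
  classical
  have hfr : Module.finrank ℝ (Module.Dual ℝ L) = a + 1 := by
    rw [Subspace.dual_finrank_eq, hL]
  let e : Module.Basis (Fin (a + 1)) ℝ (Module.Dual ℝ L) := Module.finBasisOfFinrankEq ℝ _ hfr
  -- a basis of coordinate functionals
  obtain ⟨κ, f, hfinj, hspan, hli⟩ := exists_linearIndependent' ℝ (coor L)
  rw [span_coor] at hspan
  let bas : Module.Basis κ ℝ (Module.Dual ℝ L) := Module.Basis.mk hli hspan.ge
  have : Fintype κ := FiniteDimensional.fintypeBasisIndex bas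
  have hcard : Fintype.card κ = a + 1 := by
    rw [← Module.finrank_eq_card_basis bas, hfr]
  let eq : Fin (a + 1) ≃ κ := (Fintype.equivFinOfCardEq hcard).symm
  have hdet0 : e.det (coor L ∘ (f ∘ eq)) ≠ 0 := by
    have h1 : LinearIndependent ℝ (coor L ∘ (f ∘ eq)) := hli.comp eq eq.injective
    have h2 : Submodule.span ℝ (Set.range (coor L ∘ (f ∘ eq))) = ⊤ := by
      rw [← Function.comp_assoc, Set.range_comp (coor L ∘ f) eq, eq.surjective.range_eq,
        Set.image_univ, hspan]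
    exact ((Module.Basis.is_basis_iff_det e).1 ⟨h1, h2⟩).ne_zero
  have hne : Nonempty (Fin (a + 1) → Fin d) := ⟨f ∘ eq⟩
  obtain ⟨i, hi⟩ := Finite.exists_max (fun i : Fin (a + 1) → Fin d => |e.det (coor L ∘ i)|)
  have hpos : 0 < |e.det (coor L ∘ i)| := lt_of_lt_of_le (abs_pos.2 hdet0) (hi (f ∘ eq))
  have hunit : IsUnit (e.det (coor L ∘ i)) := (abs_pos.1 hpos).isUnit
  obtain ⟨hli', hsp'⟩ := (Module.Basis.is_basis_iff_det e).2 hunit
  refine ⟨i, fun j k hjk => ?_, fun l => ?_⟩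
  · apply hli'.injective
    show coor L (i j) = coor L (i k)
    rw [hjk]
  · let bas' : Module.Basis (Fin (a + 1)) ℝ (Module.Dual ℝ L) := Module.Basis.mk hli' hsp'.ge
    refine ⟨fun j => bas'.coord j (coor L l), fun j => ?_, ?_⟩
    · have h1 := Module.Basis.det_smul_mk_coord_eq_det_update (e := e) hli' hsp'.ge j
      have h2 := congrArg (fun g => g (coor L l)) h1
      have h3 : e.det (coor L ∘ i) * bas'.coord j (coor L l) =
          e.det (Function.update (coor L ∘ i) j (coor L l)) := h2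
      rw [← Function.comp_update] at h3
      have h4 := hi (Function.update i j l)
      have h5 : |e.det (coor L ∘ i)| * |bas'.coord j (coor L l)| ≤ |e.det (coor L ∘ i)| * 1 := by
        rw [← abs_mul, h3, mul_one]
        exact h4
      exact le_of_mul_le_mul_left h5 hpos
    · have h1 := (bas'.sum_repr (coor L l)).symm
      rw [h1]
      refine Finset.sum_congr rfl fun j _ => ?_
      rw [← h1]
      congr 1
      exact Module.Basis.mk_apply hli' hsp'.ge j

/-- **Every subspace of dimension `a + 1` contains a unit vector of the open cone.** -/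
theorem subspace_meets {a M b d : ℕ} (hb : 1 ≤ b) (hbM : 8 * M < b ^ a)
    (L : Submodule ℝ (EuclideanSpace ℝ (Fin d))) (hL : Module.finrank ℝ L = a + 1) :
    ∃ ξ ∈ L, ‖ξ‖ = 1 ∧ ξ ∈ Uset a M b d := by
  obtain ⟨i, hinj, hc⟩ := exists_good_coordinates L hL
  have hbr : (1 : ℝ) ≤ b := by exact_mod_cast hb
  have hb0 : (0 : ℝ) < b := by linarith
  -- the evaluation in the good coordinates is bijective
  let Ψ : L →ₗ[ℝ] (Fin (a + 1) → ℝ) := LinearMap.pi fun j => coor L (i j)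
  have hΨ : Function.Injective Ψ := by
    rw [← LinearMap.ker_eq_bot, LinearMap.ker_eq_bot']
    intro x hx
    apply Subtype.ext
    ext l
    obtain ⟨c, _, hc2⟩ := hc l
    have h1 : coor L l x = 0 := by
      rw [hc2, LinearMap.sum_apply]
      apply Finset.sum_eq_zero
      intro j _
      have h2 : coor L (i j) x = 0 := congrFun hx j
      rw [LinearMap.smul_apply, h2, smul_zero]
    exact h1
  have hsurj : Function.Surjective Ψ := by
    rw [← LinearMap.injective_iff_surjective_of_finrank_eq_finrank]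
    · exact hΨ
    · rw [hL, Module.finrank_fin_fun]
  obtain ⟨x, hx⟩ := hsurj (fun j => ((b : ℝ)⁻¹) ^ (j : ℕ))
  have hxi : ∀ j, (x : EuclideanSpace ℝ (Fin d)) (i j) = ((b : ℝ)⁻¹) ^ (j : ℕ) := fun j =>
    congrFun hx j
  have hxa : ∀ j, |(x : EuclideanSpace ℝ (Fin d)) (i j)| = ((b : ℝ)⁻¹) ^ (j : ℕ) := fun j => by
    rw [hxi, abs_of_pos (by positivity)]
  have hle1 : ∀ m : ℕ, ((b : ℝ)⁻¹) ^ m ≤ 1 := fun m =>
    pow_le_one₀ (by positivity) (inv_le_one_of_one_le₀ hbr)
  have hU : (x : EuclideanSpace ℝ (Fin d)) ∈ Uset a M b d := by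
    refine ⟨i, hinj, ?_, ?_, ?_, ?_⟩
    · rw [hxa]
      positivity
    · rw [hxa, hxa, Fin.val_last, Fin.val_zero, pow_zero, inv_pow, mul_inv_lt_iff₀ (by positivity),
        one_mul]
      exact_mod_cast hbM
    · intro k
      rw [hxa, hxa, Fin.val_castSucc, Fin.val_succ, pow_succ]
      have h1 : 2 * (b : ℝ) * ((b : ℝ)⁻¹ ^ (k : ℕ) * (b : ℝ)⁻¹) = 2 * (b : ℝ)⁻¹ ^ (k : ℕ) := by
        field_simp
      rw [h1]
      have h2 : (0 : ℝ) < (b : ℝ)⁻¹ ^ (k : ℕ) := by positivity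
      linarith
    · intro l
      rw [hxa, Fin.val_zero, pow_zero, mul_one]
      obtain ⟨c, hc1, hc2⟩ := hc l
      have h1 : (x : EuclideanSpace ℝ (Fin d)) l = ∑ j, c j * ((b : ℝ)⁻¹) ^ (j : ℕ) := by
        have h2 : coor L l x = ∑ j, c j * ((b : ℝ)⁻¹) ^ (j : ℕ) := by
          rw [hc2, LinearMap.sum_apply]
          refine Finset.sum_congr rfl fun j _ => ?_
          rw [LinearMap.smul_apply, smul_eq_mul, coor_apply, hxi]
        exact h2
      rw [h1]
      have h3 : |∑ j, c j * ((b : ℝ)⁻¹) ^ (j : ℕ)| ≤ ∑ j : Fin (a + 1), (1 : ℝ) := by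
        refine (Finset.abs_sum_le_sum_abs _ _).trans (Finset.sum_le_sum fun j _ => ?_)
        rw [abs_mul, abs_of_pos (show (0 : ℝ) < (b : ℝ)⁻¹ ^ (j : ℕ) by positivity)]
        exact mul_le_one₀ (hc1 j) (by positivity) (hle1 _)
      rw [Finset.sum_const, Finset.card_univ, Fintype.card_fin, nsmul_eq_mul, mul_one] at h3
      push_cast at h3
      linarith
  have hx0 : (x : EuclideanSpace ℝ (Fin d)) ≠ 0 := by
    intro h0
    have h1 := hxi 0
    rw [h0, Fin.val_zero, pow_zero] at h1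
    exact zero_ne_one h1
  refine ⟨‖(x : EuclideanSpace ℝ (Fin d))‖⁻¹ • (x : EuclideanSpace ℝ (Fin d)),
    L.smul_mem _ x.2, ?_, ?_⟩
  · rw [norm_smul, norm_inv, norm_norm, inv_mul_cancel₀]
    exact norm_ne_zero_iff.2 hx0
  · exact Uset_smul_of (inv_ne_zero (norm_ne_zero_iff.2 hx0)) hU

end Pool.Agent.BVDim2
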