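import Mathlib

set_option autoImplicit false

namespace Pool.Agent.BVDim2

/-- The choice of the parameters. -/
theorem exists_params (a d : ℕ) (ha : 1 ≤ a) (s : ℝ) (hs : (d : ℝ) < ((a : ℝ) + 1) * s) :
    ∃ (K M q g b : ℕ) (κ t θ W : ℝ), 1 ≤ K ∧ 1 ≤ M ∧ 1 ≤ b ∧ 8 * M < b ^ a ∧ 0 < κ ∧
      (2 * (b : ℝ) + 1) * κ ≤ 1 ∧ ((a : ℝ) + 2) * κ ≤ 1 / 2 ∧ 2 * (M : ℝ) ≤ κ * ((q : ℝ) - 1) ∧
      2 ≤ q ∧ 0 < g ∧ 2 * g ≤ q ∧ (K : ℝ) * q ≤ g * M ∧ 0 < t ∧ 1 ≤ θ ∧ t * θ ^ K = 1 ∧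
      2 * (g : ℝ) + t * q ≤ W ∧ (θ * W) ^ d < (q : ℝ) ^ s := by
  have har : (1 : ℝ) ≤ a := by exact_mod_cast ha
  have hd0 : (0 : ℝ) ≤ d := Nat.cast_nonneg d
  set e : ℝ := ((a : ℝ) + 1) * s - d with he
  have he0 : 0 < e := by rw [he]; linarith
  obtain ⟨K, hK⟩ := exists_nat_gt (d * a / e)
  have hKe : (d : ℝ) * a < K * e := by
    rw [div_lt_iff₀ he0] at hK
    exact hK
  have hK1 : 1 ≤ K := by
    rcases Nat.eq_zero_or_pos K with h | h
    · rw [h, Nat.cast_zero, zero_mul] at hKe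
      have : (0 : ℝ) ≤ d * a := by positivity
      linarith
    · exact h
  have hKr : (1 : ℝ) ≤ K := by exact_mod_cast hK1
  set c0 : ℝ := K * e - d * a with hc0
  have hc0p : 0 < c0 := by rw [hc0]; linarith
  obtain ⟨n0, hn0⟩ := exists_nat_gt (d * (K + 6) / c0)
  set n : ℕ := n0 + a + 6 with hn
  have hnr : (d : ℝ) * (K + 6) < n * c0 := by
    rw [div_lt_iff₀ hc0p] at hn0
    have h1 : (n0 : ℝ) ≤ n := by exact_mod_cast (by omega : n0 ≤ n)
    nlinarith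
  set β : ℕ := K * n with hβ
  have hβn : n ≤ β := by rw [hβ]; exact Nat.le_mul_of_pos_left n hK1
  have haβ : β ≤ a * β := Nat.le_mul_of_pos_left β ha
  have h4 : 6 ≤ a * β := by omega
  obtain ⟨γ, hγ⟩ := Nat.exists_eq_add_of_le (show 4 ≤ a * β by omega)
  -- the powers of two
  have hq : (2 : ℝ) ^ ((a + 1) * β) = 16 * 2 ^ γ * 2 ^ β := by
    rw [add_mul, one_mul, pow_add, hγ, pow_add]
    norm_num
  have hβp : (1 : ℝ) ≤ 2 ^ β := one_le_pow₀ (by norm_num)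
  have hγp : (1 : ℝ) ≤ 2 ^ γ := one_le_pow₀ (by norm_num)
  have hKβ : K + 5 ≤ β := by
    rw [hβ]
    nlinarith
  refine ⟨K, 2 ^ γ, 2 ^ ((a + 1) * β), K * 2 ^ (β + 4), 2 ^ β, 1 / 2 ^ (β + 2), 1 / 2 ^ (a * β),
    2 ^ (a * n), K * 2 ^ (β + 6), hK1, Nat.one_le_two_pow, Nat.one_le_two_pow, ?_, by positivity,
    ?_, ?_, ?_, ?_, by positivity, ?_, ?_, by positivity, one_le_pow₀ (by norm_num), ?_, ?_, ?_⟩
  · rw [← pow_mul, mul_comm β a, hγ, pow_add]
    have : 0 < 2 ^ γ := by positivity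
    omega
  · rw [mul_one_div, div_le_one (by positivity), pow_add]
    push_cast
    linarith
  · rw [mul_one_div, div_le_iff₀ (by positivity), pow_add]
    have h5 : (a : ℝ) + 1 ≤ 2 ^ β := by
      have h6 : a + 1 ≤ 2 ^ β := by
        have h7 : β < 2 ^ β := Nat.lt_two_pow_self
        omega
      exact_mod_cast h6
    linarith
  · push_cast
    rw [hq, one_div_mul_eq_div, le_div_iff₀ (by positivity), pow_add]
    nlinarith
  · calc 2 = 2 ^ 1 := by norm_num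
      _ ≤ 2 ^ ((a + 1) * β) := Nat.pow_le_pow_right (by norm_num) (by nlinarith)
  · have h5 : K < 2 ^ K := Nat.lt_two_pow_self
    calc 2 * (K * 2 ^ (β + 4)) ≤ 2 * (2 ^ K * 2 ^ (β + 4)) := by gcongr
      _ = 2 ^ (1 + (K + (β + 4))) := by rw [← pow_add, ← pow_succ']; congr 1; ring
      _ ≤ 2 ^ ((a + 1) * β) := by
        apply Nat.pow_le_pow_right (by norm_num)
        rw [add_mul, one_mul]
        omega
  · push_cast
    rw [hq, pow_add]
    apply le_of_eq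
    ring
  · rw [← pow_mul, one_div, inv_mul_eq_div, div_eq_one_iff_eq (by positivity)]
    congr 1
    rw [hβ]
    ring
  · push_cast
    have h5 : (1 : ℝ) / 2 ^ (a * β) * 2 ^ ((a + 1) * β) = 2 ^ β := by
      rw [add_mul, one_mul, pow_add]
      field_simp
    rw [h5, pow_add, pow_add]
    nlinarith
  · have h5 : (K : ℝ) < 2 ^ K := by exact_mod_cast Nat.lt_two_pow_self
    have h6 : ((2 : ℝ) ^ (a * n) * (K * 2 ^ (β + 6))) ^ d ≤ ((2 : ℝ) ^ (a * n + K + β + 6)) ^ d := by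
      apply pow_le_pow_left₀ (by positivity)
      calc (2 : ℝ) ^ (a * n) * (K * 2 ^ (β + 6)) ≤ 2 ^ (a * n) * (2 ^ K * 2 ^ (β + 6)) := by gcongr
        _ = 2 ^ (a * n + K + β + 6) := by
          rw [← pow_add, ← pow_add]
          congr 1
          ring
    refine lt_of_le_of_lt h6 ?_
    rw [← pow_mul]
    push_cast
    rw [← Real.rpow_natCast 2 ((a * n + K + β + 6) * d), ← Real.rpow_natCast 2 ((a + 1) * β),
      ← Real.rpow_mul (by norm_num)]
    apply Real.rpow_lt_rpow_of_exponent_lt (by norm_num)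
    push_cast
    have h7 : (β : ℝ) = K * n := by rw [hβ]; push_cast; ring
    rw [h7]
    have h8 : (n : ℝ) * c0 = (a + 1) * (K * n) * s - d * (K * n) - d * a * n := by
      rw [hc0, he]; ring
    have h9 : ((a : ℝ) * n + K + K * n + 6) * d = d * a * n + d * (K * n) + d * (K + 6) := by ring
    rw [h9]
    linarith

end Pool.Agent.BVDim2
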