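import Mathlib
import Pool.Agent.BVDim.Product

set_option autoImplicit false

namespace Pool.Agent.BVDim2

open MeasureTheory MeasureTheory.Measure Filter Topology Finset ENNReal Metric
open Pool.Agent.BVDim

/-! The digit argument of `BVDim`, with a general proportion `1 / K` of bad digits. -/

/-- points of the unit cube with few bad digits at infinitely many scales -/
def Eset (K d q g : ℕ) : Set (Fin d → ℝ) :=
  {u | (∀ i, 0 ≤ u i ∧ u i < 1) ∧ ∃ᶠ J in (atTop : Filter ℕ), K * ∑ i, nb q g J (u i) ≤ d * J}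

theorem subset_cubes (K d q g : ℕ) (hq : 0 < q) {t θ : ℝ} (hθ : 1 ≤ θ)
    (hθt : t * θ ^ K = 1) (n : ℕ) :
    Eset K d q g ⊆ ⋃ p : (k : ℕ) × (CC d q g t θ (n + k)), cube d q (n + p.1) p.2 := by
  rintro u ⟨hu, hfreq⟩
  rw [Filter.frequently_atTop] at hfreq
  obtain ⟨J, hJn, hJ⟩ := hfreq n
  obtain ⟨k, rfl⟩ := Nat.exists_eq_add_of_le hJn
  rw [Set.mem_iUnion]
  have hqJ : (0 : ℝ) < (q : ℝ) ^ (n + k) := by positivity
  refine ⟨⟨k, ⟨fun i => ⌊(q : ℝ) ^ (n + k) * u i⌋₊, ?_⟩⟩, ?_⟩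
  · unfold CC
    rw [Finset.mem_filter, Fintype.mem_piFinset]
    constructor
    · intro i
      rw [Finset.mem_range, Nat.floor_lt (mul_nonneg hqJ.le (hu i).1)]
      push_cast
      have := (hu i).2
      nlinarith
    · simp_rw [wJ_floor q g hq t]
      rw [Finset.prod_pow_eq_pow_sum]
      have h1 : t = (θ ^ K)⁻¹ := eq_inv_of_mul_eq_one_left hθt
      rw [h1, inv_pow, ← pow_mul]
      apply inv_anti₀ (by positivity)
      exact pow_le_pow_right₀ hθ hJ
  · intro i
    constructor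
    · exact Nat.floor_le (mul_nonneg hqJ.le (hu i).1)
    · exact Nat.lt_floor_add_one _

theorem hausdorff_null (K d q g : ℕ) (hq : 2 ≤ q) {t θ W s : ℝ} (ht : 0 < t) (hθ : 1 ≤ θ)
    (hθt : t * θ ^ K = 1) (hW : ∑ a ∈ range q, wl q g t a ≤ W) (hs : 0 < s)
    (hρ : (θ * W) ^ d < (q : ℝ) ^ s) : μH[s] (Eset K d q g) = 0 := by
  have hq0 : 0 < q := by omega
  have hqr : (1 : ℝ) < q := by exact_mod_cast hq
  have hqr0 : (0 : ℝ) < q := by linarith
  have hW0 : 0 ≤ W := le_trans (Finset.sum_nonneg (fun a _ => (wl_pos q g ht a).le)) hW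
  set ρ : ℝ := (θ * W) ^ d * ((q : ℝ) ^ s)⁻¹ with hρdef
  have hqs : (0 : ℝ) < (q : ℝ) ^ s := Real.rpow_pos_of_pos hqr0 s
  have hρ0 : 0 ≤ ρ := by positivity
  have hρ1 : ρ < 1 := by
    rw [hρdef, ← div_eq_mul_inv, div_lt_one hqs]; exact hρ
  -- tail bound
  have htail : ∀ n : ℕ, ∑' p : (k : ℕ) × (CC d q g t θ (n + k)),
      ediam (cube d q (n + p.1) p.2) ^ s ≤ ENNReal.ofReal (ρ ^ n * (1 - ρ)⁻¹) := by
    intro n
    rw [ENNReal.tsum_sigma']
    have h1 : ∀ k : ℕ, ∑' N : (CC d q g t θ (n + k)), ediam (cube d q (n + k) N) ^ s ≤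
        ENNReal.ofReal (ρ ^ (n + k)) := by
      intro k
      have h2 : ∀ N : (CC d q g t θ (n + k)), ediam (cube d q (n + k) N) ^ s ≤
          ENNReal.ofReal ((((q : ℝ) ^ s)⁻¹) ^ (n + k)) := by
        intro N
        have h3 := ENNReal.rpow_le_rpow (ediam_cube d q (n + k) hq0 N) hs.le
        refine h3.trans (le_of_eq ?_)
        rw [ENNReal.ofReal_rpow_of_nonneg (by positivity) hs.le]
        congr 1
        rw [Real.inv_rpow (by positivity), inv_pow]
        congr 1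
        rw [← Real.rpow_natCast, ← Real.rpow_natCast, ← Real.rpow_mul hqr0.le,
          ← Real.rpow_mul hqr0.le, mul_comm]
      calc ∑' N : (CC d q g t θ (n + k)), ediam (cube d q (n + k) N) ^ s
          ≤ ∑' N : (CC d q g t θ (n + k)), ENNReal.ofReal ((((q : ℝ) ^ s)⁻¹) ^ (n + k)) :=
            ENNReal.tsum_le_tsum h2
        _ = ((CC d q g t θ (n + k)).card : ℝ≥0∞) * ENNReal.ofReal ((((q : ℝ) ^ s)⁻¹) ^ (n + k)) := by
            rw [tsum_fintype, Finset.sum_const, nsmul_eq_mul]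
            simp
        _ = ENNReal.ofReal ((CC d q g t θ (n + k)).card * (((q : ℝ) ^ s)⁻¹) ^ (n + k)) := by
            rw [ENNReal.ofReal_mul (by positivity), ENNReal.ofReal_natCast]
        _ ≤ ENNReal.ofReal (ρ ^ (n + k)) := by
            apply ENNReal.ofReal_le_ofReal
            rw [hρdef, mul_pow]
            exact mul_le_mul_of_nonneg_right (card_CC d q g hq0 ht hθ hW (n + k)) (by positivity)
    refine (ENNReal.tsum_le_tsum h1).trans ?_
    have hsum : Summable (fun k : ℕ => ρ ^ (n + k)) := by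
      simp_rw [pow_add]
      exact (summable_geometric_of_lt_one hρ0 hρ1).mul_left _
    rw [← ENNReal.ofReal_tsum_of_nonneg (fun k => by positivity) hsum]
    apply ENNReal.ofReal_le_ofReal
    simp_rw [pow_add]
    rw [tsum_mul_left, tsum_geometric_of_lt_one hρ0 hρ1]
  have hdiam0 : Tendsto (fun n : ℕ => ENNReal.ofReal (((q : ℝ) ^ n)⁻¹)) atTop (𝓝 0) := by
    rw [← ENNReal.ofReal_zero]
    apply ENNReal.tendsto_ofReal
    exact tendsto_inv_atTop_zero.comp (tendsto_pow_atTop_atTop_of_one_lt hqr)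
  have hmain := hausdorffMeasure_le_liminf_tsum (X := Fin d → ℝ) (β := ℕ)
    (ι := fun n => (k : ℕ) × (CC d q g t θ (n + k))) s (Eset K d q g) (l := atTop)
    (fun n => ENNReal.ofReal (((q : ℝ) ^ n)⁻¹)) hdiam0
    (fun n p => cube d q (n + p.1) p.2)
    (Eventually.of_forall fun n p => by
      refine (ediam_cube d q (n + p.1) hq0 p.2).trans ?_
      apply ENNReal.ofReal_le_ofReal
      apply inv_anti₀ (by positivity)
      exact pow_le_pow_right₀ hqr.le (by omega))
    (Eventually.of_forall fun n => subset_cubes K d q g hq0 hθ hθt n)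
  refine le_antisymm (hmain.trans ?_) bot_le
  have hlim : Tendsto (fun n : ℕ => ENNReal.ofReal (ρ ^ n * (1 - ρ)⁻¹)) atTop (𝓝 0) := by
    rw [← ENNReal.ofReal_zero]
    apply ENNReal.tendsto_ofReal
    have := (tendsto_pow_atTop_nhds_zero_of_lt_one hρ0 hρ1).mul_const ((1 - ρ)⁻¹)
    rwa [zero_mul] at this
  rw [← hlim.liminf_eq]
  exact liminf_le_liminf (Eventually.of_forall htail)

section oneD

variable {M q : ℕ} {κ : ℝ} {ψ : ℝ → ℝ} {σ : Measure ℝ}

theorem bad_lintegral (K : ℕ) (hK : 1 ≤ K) (hM : 1 ≤ M) (hψ : IsCutoff κ ψ)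
    (hq : 2 * (M : ℝ) ≤ κ * ((q : ℝ) - 1))
    (hκ : κ ≤ 1 / 2) (hq1 : 2 ≤ q) (hσ : IsLimit M q ψ σ) (g : ℕ) (hg : 0 < g) (hgq : 2 * g ≤ q)
    (hgM : (K : ℝ) * (q : ℝ) ≤ g * M) (j : ℕ) :
    ∫⁻ x, (bad q g j (Int.fract x) : ℝ≥0∞) ∂σ ≤ ENNReal.ofReal (1 / (2 * K)) := by
  have := hσ.prob
  have hKr : (1 : ℝ) ≤ K := by exact_mod_cast hK
  have hqr : (0 : ℝ) < q := by have : (2 : ℝ) ≤ q := by exact_mod_cast hq1
                               linarith
  have hgr : (0 : ℝ) < g := by exact_mod_cast hg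
  have hMr : (0 : ℝ) < M := by exact_mod_cast hM
  set δ : ℝ := (g : ℝ) / q with hδ
  have hδ0 : 0 < δ := by positivity
  have hint : Integrable (fun x : ℝ => 1 - Real.cos (2 * Real.pi * ((q : ℝ) ^ j * x))) σ := by
    apply Integrable.of_bound (C := 2)
    · exact (by fun_prop : Continuous _).aestronglyMeasurable
    · refine Eventually.of_forall (fun x => ?_)
      rw [Real.norm_eq_abs, abs_le]
      have h1 := Real.cos_le_one (2 * Real.pi * ((q : ℝ) ^ j * x))
      have h2 := Real.neg_one_le_cos (2 * Real.pi * ((q : ℝ) ^ j * x))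
      constructor <;> linarith
  have hint2 : Integrable (fun x : ℝ => Real.cos (2 * Real.pi * ((q : ℝ) ^ j * x))) σ := by
    apply Integrable.of_bound (C := 1)
    · exact (by fun_prop : Continuous _).aestronglyMeasurable
    · refine Eventually.of_forall (fun x => ?_)
      rw [Real.norm_eq_abs]
      exact Real.abs_cos_le_one _
  calc ∫⁻ x, (bad q g j (Int.fract x) : ℝ≥0∞) ∂σ
      ≤ ∫⁻ x, ENNReal.ofReal ((1 - Real.cos (2 * Real.pi * ((q : ℝ) ^ j * x))) * (8 * δ ^ 2)⁻¹) ∂σ := by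
        apply lintegral_mono
        intro x
        have h1 := bad_le_cos q g j (by omega) hg hgq (Int.fract x) (Int.fract_nonneg x)
        rw [cos_fract] at h1
        show (bad q g j (Int.fract x) : ℝ≥0∞) ≤
          ENNReal.ofReal ((1 - Real.cos (2 * Real.pi * ((q : ℝ) ^ j * x))) * (8 * δ ^ 2)⁻¹)
        rw [← ENNReal.ofReal_natCast]
        apply ENNReal.ofReal_le_ofReal
        rw [← div_eq_mul_inv, le_div_iff₀ (by positivity)]
        exact h1
    _ = ENNReal.ofReal (∫ x, (1 - Real.cos (2 * Real.pi * ((q : ℝ) ^ j * x))) * (8 * δ ^ 2)⁻¹ ∂σ) := by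
        rw [ofReal_integral_eq_lintegral_ofReal (hint.mul_const _)]
        refine Eventually.of_forall (fun x => ?_)
        have h1 := Real.cos_le_one (2 * Real.pi * ((q : ℝ) ^ j * x))
        have : 0 ≤ 1 - Real.cos (2 * Real.pi * ((q : ℝ) ^ j * x)) := by linarith
        positivity
    _ ≤ ENNReal.ofReal (1 / (2 * K)) := by
        apply ENNReal.ofReal_le_ofReal
        rw [integral_mul_const, integral_sub (integrable_const 1) hint2,
          integral_cos hM hψ hq hκ hq1 hσ j]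
        simp only [integral_const, probReal_univ, smul_eq_mul, mul_one]
        have h1 := cc_one_lower M hM
        rw [← div_eq_mul_inv, div_le_iff₀ (by positivity)]
        have h3 : 4 / (M : ℝ) ^ 2 ≤ 1 / (2 * K) * (8 * δ ^ 2) := by
          rw [div_le_iff₀ (by positivity)]
          have h4 : (K : ℝ) ≤ δ * M := by
            rw [hδ, div_mul_eq_mul_div, le_div_iff₀ hqr]; exact hgM
          have h5 : (K : ℝ) ≤ (δ * M) ^ 2 := by nlinarith
          have h6 : (1 : ℝ) / (2 * K) * (8 * δ ^ 2) * (M : ℝ) ^ 2 = 4 * ((δ * M) ^ 2 / K) := by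
            field_simp
            ring
          rw [h6]
          have h7 : 1 ≤ (δ * M) ^ 2 / K := by
            rw [le_div_iff₀ (by linarith)]; linarith
          linarith
        linarith

end oneD

section nD

variable {M q : ℕ} {κ : ℝ} {ψ : ℝ → ℝ} {σ : Measure ℝ}

/-- points of `ℝ^d` with few bad digits at scale `J` -/
def AJ (K d q g J : ℕ) : Set (Fin d → ℝ) := {x | K * ∑ i, nb q g J (Int.fract (x i)) ≤ d * J}

/-- points with few bad digits at infinitely many scales -/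
def EE (K d q g : ℕ) : Set (Fin d → ℝ) := {x | ∃ᶠ J in (atTop : Filter ℕ), x ∈ AJ K d q g J}

theorem measurableSet_AJ (K d q g J : ℕ) : MeasurableSet (AJ K d q g J) := by
  have h1 : Measurable (fun x : Fin d → ℝ => K * ∑ i, nb q g J (Int.fract (x i))) := by
    apply Measurable.const_mul
    exact Finset.measurable_sum _ (fun i _ => (measurable_nb q g J).comp (measurable_pi_apply i))
  exact h1 (measurableSet_Iic (a := d * J))

theorem EE_eq (K d q g : ℕ) : EE K d q g = ⋂ n : ℕ, ⋃ J : ℕ, AJ K d q g (n + J) := by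
  ext x
  simp only [EE, Set.mem_ofPred_eq, Filter.frequently_atTop, Set.mem_iInter, Set.mem_iUnion]
  constructor
  · intro h n
    obtain ⟨J, hJ, hx⟩ := h n
    obtain ⟨k, rfl⟩ := Nat.exists_eq_add_of_le hJ
    exact ⟨k, hx⟩
  · intro h n
    obtain ⟨k, hx⟩ := h n
    exact ⟨n + k, by omega, hx⟩

theorem measurableSet_EE (K d q g : ℕ) : MeasurableSet (EE K d q g) := by
  rw [EE_eq]
  exact MeasurableSet.iInter (fun n => MeasurableSet.iUnion (fun J => measurableSet_AJ K d q g _))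

theorem measure_AJ (K : ℕ) (hK : 1 ≤ K) (hM : 1 ≤ M) (hψ : IsCutoff κ ψ)
    (hq : 2 * (M : ℝ) ≤ κ * ((q : ℝ) - 1))
    (hκ : κ ≤ 1 / 2) (hq1 : 2 ≤ q) (hσ : IsLimit M q ψ σ) (g : ℕ) (hg : 0 < g) (hgq : 2 * g ≤ q)
    (hgM : (K : ℝ) * (q : ℝ) ≤ g * M) (d : ℕ) (hd : 0 < d) (J : ℕ) (hJ : 0 < J) :
    (Measure.pi (fun _ : Fin d => σ)) (AJ K d q g J)ᶜ ≤ ENNReal.ofReal (1 / 2) := by
  have := hσ.prob
  have hKr : (1 : ℝ) ≤ K := by exact_mod_cast hK
  set Λ := Measure.pi (fun _ : Fin d => σ) with hΛ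
  let F : (Fin d → ℝ) → ℝ≥0∞ := fun x => ∑ i, ∑ j ∈ range J, (bad q g j (Int.fract (x i)) : ℝ≥0∞)
  have hFm : Measurable F := by
    apply Finset.measurable_sum
    intro i _
    apply Finset.measurable_sum
    intro j _
    exact (measurable_of_countable (fun n : ℕ => (n : ℝ≥0∞))).comp
      ((measurable_bad q g j).comp (measurable_pi_apply i))
  have hFint : ∫⁻ x, F x ∂Λ ≤ ENNReal.ofReal ((d * J : ℕ) * (1 / (2 * K))) := by
    rw [lintegral_finsetSum]
    · have h1 : ∀ i : Fin d, ∫⁻ x : Fin d → ℝ, ∑ j ∈ range J, (bad q g j (Int.fract (x i)) : ℝ≥0∞) ∂Λ ≤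
          ENNReal.ofReal (J * (1 / (2 * K))) := by
        intro i
        rw [lintegral_finsetSum]
        · have h2 : ∀ j ∈ range J, ∫⁻ x : Fin d → ℝ, (bad q g j (Int.fract (x i)) : ℝ≥0∞) ∂Λ ≤
              ENNReal.ofReal (1 / (2 * K)) := by
            intro j _
            have h3 : ∫⁻ x : Fin d → ℝ, (bad q g j (Int.fract (x i)) : ℝ≥0∞) ∂Λ =
                ∫⁻ y, (bad q g j (Int.fract y) : ℝ≥0∞) ∂σ := by
              exact (measurePreserving_eval (fun _ : Fin d => σ) i).lintegral_comp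
                (f := fun y : ℝ => (bad q g j (Int.fract y) : ℝ≥0∞))
                ((measurable_of_countable (fun n : ℕ => (n : ℝ≥0∞))).comp (measurable_bad q g j))
            rw [h3]
            exact bad_lintegral K hK hM hψ hq hκ hq1 hσ g hg hgq hgM j
          refine (Finset.sum_le_sum h2).trans (le_of_eq ?_)
          rw [Finset.sum_const, Finset.card_range, nsmul_eq_mul, ENNReal.ofReal_mul (by positivity),
            ENNReal.ofReal_natCast]
        · intro j _
          exact (measurable_of_countable (fun n : ℕ => (n : ℝ≥0∞))).comp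
            ((measurable_bad q g j).comp (measurable_pi_apply i))
      refine (Finset.sum_le_sum (fun i _ => h1 i)).trans (le_of_eq ?_)
      rw [Finset.sum_const, Finset.card_univ, Fintype.card_fin, nsmul_eq_mul]
      push_cast
      rw [mul_assoc, ENNReal.ofReal_mul (p := (d : ℝ)) (by positivity), ENNReal.ofReal_natCast]
    · intro i _
      apply Finset.measurable_sum
      intro j _
      exact (measurable_of_countable (fun n : ℕ => (n : ℝ≥0∞))).comp
        ((measurable_bad q g j).comp (measurable_pi_apply i))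
  have hdJ : (0 : ℝ) < ((d * J : ℕ) : ℝ) := by exact_mod_cast Nat.mul_pos hd hJ
  have hsub : (AJ K d q g J)ᶜ ⊆ {x | ENNReal.ofReal ((d * J : ℕ) * (1 / K)) ≤ F x} := by
    intro x hx
    have h1 : d * J < K * ∑ i, nb q g J (Int.fract (x i)) := by
      simpa [AJ] using hx
    show _ ≤ F x
    have h2 : F x = ((∑ i, nb q g J (Int.fract (x i)) : ℕ) : ℝ≥0∞) := by
      show (∑ i, ∑ j ∈ range J, (bad q g j (Int.fract (x i)) : ℝ≥0∞)) = _
      unfold nb
      push_cast
      rfl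
    rw [h2, ← ENNReal.ofReal_natCast (∑ i, nb q g J (Int.fract (x i)))]
    apply ENNReal.ofReal_le_ofReal
    have h3 : ((d * J : ℕ) : ℝ) ≤ K * ((∑ i, nb q g J (Int.fract (x i)) : ℕ) : ℝ) := by
      exact_mod_cast h1.le
    rw [mul_one_div, div_le_iff₀ (by linarith)]
    linarith
  refine (measure_mono hsub).trans ?_
  refine (meas_ge_le_lintegral_div hFm.aemeasurable (by
    rw [Ne, ENNReal.ofReal_eq_zero, not_le]; positivity) ENNReal.ofReal_ne_top).trans ?_
  rw [ENNReal.div_le_iff (by rw [Ne, ENNReal.ofReal_eq_zero, not_le]; positivity)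
    ENNReal.ofReal_ne_top]
  refine hFint.trans (le_of_eq ?_)
  rw [← ENNReal.ofReal_mul (by norm_num)]
  congr 1
  field_simp

theorem measure_EE (K : ℕ) (hK : 1 ≤ K) (hM : 1 ≤ M) (hψ : IsCutoff κ ψ)
    (hq : 2 * (M : ℝ) ≤ κ * ((q : ℝ) - 1))
    (hκ : κ ≤ 1 / 2) (hq1 : 2 ≤ q) (hσ : IsLimit M q ψ σ) (g : ℕ) (hg : 0 < g) (hgq : 2 * g ≤ q)
    (hgM : (K : ℝ) * (q : ℝ) ≤ g * M) (d : ℕ) (hd : 0 < d) :
    (Measure.pi (fun _ : Fin d => σ)) (EE K d q g) ≠ 0 := by
  have := hσ.prob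
  set Λ := Measure.pi (fun _ : Fin d => σ) with hΛ
  have hA : ∀ J, 0 < J → ENNReal.ofReal (1 / 2) ≤ Λ (AJ K d q g J) := by
    intro J hJ
    have h1 := measure_AJ K hK hM hψ hq hκ hq1 hσ g hg hgq hgM d hd J hJ
    have h2 : Λ (AJ K d q g J) + Λ (AJ K d q g J)ᶜ = 1 := by
      rw [measure_add_measure_compl (measurableSet_AJ K d q g J), measure_univ]
    by_contra hlt
    rw [not_le] at hlt
    have h3 : Λ (AJ K d q g J) + Λ (AJ K d q g J)ᶜ < ENNReal.ofReal (1 / 2) + ENNReal.ofReal (1 / 2) :=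
      ENNReal.add_lt_add_of_lt_of_le (measure_ne_top _ _) hlt h1
    rw [h2, ← ENNReal.ofReal_add (by norm_num) (by norm_num)] at h3
    norm_num at h3
  rw [EE_eq]
  have hanti : Antitone (fun n : ℕ => ⋃ J : ℕ, AJ K d q g (n + J)) := by
    intro n m hnm
    show (⋃ J : ℕ, AJ K d q g (m + J)) ⊆ ⋃ J : ℕ, AJ K d q g (n + J)
    apply Set.iUnion_subset
    intro J
    obtain ⟨k, rfl⟩ := Nat.exists_eq_add_of_le hnm
    exact Set.subset_iUnion_of_subset (k + J) (by rw [← add_assoc])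
  rw [hanti.measure_iInter (fun n => (MeasurableSet.iUnion
    (fun J => measurableSet_AJ K d q g _)).nullMeasurableSet) ⟨0, measure_ne_top _ _⟩]
  have h1 : ENNReal.ofReal (1 / 2) ≤ ⨅ n : ℕ, Λ (⋃ J : ℕ, AJ K d q g (n + J)) := by
    apply le_iInf
    intro n
    refine (hA (n + 1) (by omega)).trans (measure_mono ?_)
    exact Set.subset_iUnion (fun J : ℕ => AJ K d q g (n + J)) 1
  intro h0
  rw [h0] at h1
  have : (0 : ℝ≥0∞) < ENNReal.ofReal (1 / 2) := ENNReal.ofReal_pos.2 (by norm_num)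
  exact absurd h1 (not_le.2 this)

theorem EE_subset (K d q g : ℕ) :
    EE K d q g ⊆ ⋃ z : Fin d → ℤ, (fun u : Fin d → ℝ => (fun i => (z i : ℝ)) + u) '' (Eset K d q g) := by
  intro x hx
  rw [Set.mem_iUnion]
  refine ⟨fun i => ⌊x i⌋, fun i => Int.fract (x i), ⟨fun i => ⟨Int.fract_nonneg _, Int.fract_lt_one _⟩, hx⟩, ?_⟩
  funext i
  exact Int.floor_add_fract (x i)

theorem dimH_EE_le (K d q g : ℕ) (hq : 2 ≤ q) {t θ W : ℝ} {s : NNReal} (ht : 0 < t) (hθ : 1 ≤ θ)
    (hθt : t * θ ^ K = 1) (hW : ∑ a ∈ range q, wl q g t a ≤ W) (hs : 0 < s)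
    (hρ : (θ * W) ^ d < (q : ℝ) ^ (s : ℝ)) : dimH (EE K d q g) ≤ s := by
  refine (dimH_mono (EE_subset K d q g)).trans ?_
  rw [dimH_iUnion]
  apply iSup_le
  intro z
  have hiso : Isometry (fun u : Fin d → ℝ => (fun i => (z i : ℝ)) + u) := isometry_add_left _
  rw [hiso.dimH_image]
  apply dimH_le_of_hausdorffMeasure_ne_top
  rw [hausdorff_null K d q g hq ht hθ hθt hW (by exact_mod_cast hs) hρ]
  exact ENNReal.zero_ne_top

theorem volume_EE_eq_zero (K d q g : ℕ) {s : NNReal} (h : dimH (EE K d q g) ≤ s) (hs : s < d) :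
    (volume : Measure (Fin d → ℝ)) (EE K d q g) = 0 := by
  have h1 : dimH (EE K d q g) < (d : NNReal) := lt_of_le_of_lt h (by exact_mod_cast hs)
  have h2 := hausdorffMeasure_of_dimH_lt h1
  have h3 : (μH[((d : NNReal) : ℝ)] : Measure (Fin d → ℝ)) = volume := by
    have := hausdorffMeasure_pi_real (ι := Fin d)
    simpa using this
  rwa [h3] at h2

end nD

end Pool.Agent.BVDim2
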